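import Mathlib
import Pool.Agent.Lib.MP_2d2d9d_co.Defs
import Pool.Agent.Lib.MP_2d2d9d_co.Construction

/-!
# MP_2d2d9d_co, Q1: tilings with `12 t` components in `t` classes

For every positive integer `t` there is a `t`-class `12 t`-component tiling of the plane.
-/

namespace Pool.Agent.Results.MP_2d2d9d_co.AllClassNumbers

open Pool.Agent.Lib.MP_2d2d9d_co

/-- The set of positive integers `t` for which there is a `t`-class `12 t`-component tiling of the
plane is the set of all positive integers. -/
theorem result : {t : ℕ | 0 < t ∧ ∃ 𝒯 : Set (Set Plane), IsClassComponentTiling t (12 * t) 𝒯} =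
    {t : ℕ | 0 < t} := by
  ext t
  exact ⟨fun h => h.1, fun ht => ⟨ht, exists_tiling ht⟩⟩

end Pool.Agent.Results.MP_2d2d9d_co.AllClassNumbers
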